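import Pool.Agent.Q155.NL.Stm

/-! Project NL, job NL-BOX: from the tables of symbols to the count in a box (after
`Pool.Agent.Q283.GM.BOX`). -/

set_option autoImplicit false

open scoped Classical

namespace Q110.NL

open Finset
open Q283.GM (Fam)
open Pool.Agent.Y703.CQ (nr prs HB)
open Pool.Agent.Y657.CQ (HB_sub)
open Q155.NL

/-- one label -/
theorem one {Φ : Fam} {f : ℕ → ZMod 2} {N : Finset ℕ → Finset ℕ → Prop}
    {T : Finset ℕ → Prop} {W : Finset ℕ} {ε : ℝ} (hLab : LabN Φ f N W)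
    (hLoc : Loc Φ f N T W ε) {ι : Type} [Fintype ι] [LinearOrder ι] {J1 : Finset ι}
    {C : ι → Finset ℕ} {X : ι → ℕ} {κ : ℝ} {S₀ : Finset ℕ} (hκ : 0 ≤ κ)
    (hCX : ∀ i, (C i).card ≤ X i) (hHB : HB J1 C X κ) (hS₀ : ∀ u ∈ S₀, Φ.P u)
    (hTu : ∀ p ∈ Fintype.piFinset C, Tu Φ J1 (S₀ ∪ W) p)
    (β : ι → (↥(S₀ ∪ W) → ZMod 2) × (↥(S₀ ∪ W) → ZMod 2) × ZMod 2) :
    (1 - ε) * (((Fintype.piFinset C).filter fun p => (fun i => lb f (S₀ ∪ W) (p i)) = β ∧
        N S₀ (univ.image p)).card : ℝ) ≤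
      (((Fintype.piFinset C).filter fun p => (fun i => lb f (S₀ ∪ W) (p i)) = β ∧
        N S₀ (univ.image p) ∧ T (S₀ ∪ univ.image p)).card : ℝ) +
      2 ^ (prs J1).card * (κ * ∏ j, (X j : ℝ)) := by
  have hR0 : 0 ≤ (2 : ℝ) ^ (prs J1).card * (κ * ∏ j, (X j : ℝ)) :=
    mul_nonneg (by positivity) (mul_nonneg hκ (Finset.prod_nonneg fun j _ => by positivity))
  by_cases hemp : ((Fintype.piFinset C).filter fun p => (fun i => lb f (S₀ ∪ W) (p i)) = β ∧
      N S₀ (univ.image p)) = ∅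
  · rw [hemp, Finset.card_empty, Nat.cast_zero, mul_zero]
    positivity
  obtain ⟨q, hq⟩ := Finset.nonempty_iff_ne_empty.2 hemp
  rw [Finset.mem_filter] at hq
  obtain ⟨hq, hqβ, hqN⟩ := hq
  obtain ⟨Q, hQ1, hQ2⟩ := hLoc ι J1 S₀ q hS₀ (hTu q hq) hqN
  set C' : ι → Finset ℕ := fun i => (C i).filter fun x => lb f (S₀ ∪ W) x = β i with hC'
  have hpi : (Fintype.piFinset C).filter (fun p => (fun i => lb f (S₀ ∪ W) (p i)) = β ∧
      N S₀ (univ.image p)) = Fintype.piFinset C' := by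
    ext p
    simp only [Finset.mem_filter, Fintype.mem_piFinset, hC']
    constructor
    · rintro ⟨h2, h3, -⟩ i
      exact ⟨h2 i, congrFun h3 i⟩
    · intro h2
      refine ⟨fun i => (h2 i).1, funext fun i => (h2 i).2, ?_⟩
      refine hLab ι J1 S₀ q p hS₀ (hTu q hq)
        (hTu p (Fintype.mem_piFinset.2 fun i => (h2 i).1)) (fun i => ?_) hqN
      rw [(h2 i).2]
      exact congrFun hqβ i
  have h3 := Pool.Agent.Y356.CQ.t_EQ ι J1 C' X κ hκ
    (fun i => (Finset.card_le_card (Finset.filter_subset _ _)).trans (hCX i))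
    (HB_sub hHB fun i x => lb f (S₀ ∪ W) x = β i) Q
  have h4 : ((Fintype.piFinset C').filter fun p => Q fun e => nr (p e.1.1) (p e.1.2)).card ≤
      ((Fintype.piFinset C).filter fun p => (fun i => lb f (S₀ ∪ W) (p i)) = β ∧
        N S₀ (univ.image p) ∧ T (S₀ ∪ univ.image p)).card := by
    refine Finset.card_le_card fun p hp => ?_
    rw [Finset.mem_filter, ← hpi, Finset.mem_filter] at hp
    obtain ⟨⟨h5, h6, h7⟩, h8⟩ := hp
    rw [Finset.mem_filter]
    exact ⟨h5, h6, h7, hQ2 p (hTu p h5) (fun i => congrFun (h6.trans hqβ.symm) i) h8⟩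
  have h4' : ((((Fintype.piFinset C').filter fun p => Q fun e => nr (p e.1.1) (p e.1.2)).card : ℕ)
      : ℝ) ≤ (((Fintype.piFinset C).filter fun p => (fun i => lb f (S₀ ∪ W) (p i)) = β ∧
        N S₀ (univ.image p) ∧ T (S₀ ∪ univ.image p)).card : ℝ) := by
    exact_mod_cast h4
  have h5 : (((Fintype.piFinset C').card : ℕ) : ℝ) = ∏ j, ((C' j).card : ℝ) := by
    rw [Fintype.card_piFinset]
    push_cast
    rfl
  have h6 : (1 - ε) ≤ ((univ.filter Q).card : ℝ) / 2 ^ (prs J1).card := by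
    have h7 : (univ.filter Q).card + (univ.filter fun α => ¬ Q α).card =
        (univ : Finset (prs J1 → ZMod 2)).card := Finset.card_filter_add_card_filter_not _
    rw [Finset.card_univ, Fintype.card_fun, ZMod.card, Fintype.card_coe] at h7
    have h8 : ((univ.filter Q).card : ℝ) + ((univ.filter fun α => ¬ Q α).card : ℝ) =
        2 ^ (prs J1).card := by exact_mod_cast h7
    rw [le_div_iff₀ (by positivity)]
    linarith
  rw [hpi, h5]
  have hP0 : 0 ≤ ∏ j, ((C' j).card : ℝ) := Finset.prod_nonneg fun j _ => by positivity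
  have h9 := mul_le_mul_of_nonneg_right h6 hP0
  have h10 := (abs_le.1 h3).1
  linarith

/-- **From the tables of symbols to the count in a box.** -/
theorem box : S_BOX := by
  intro Φ f N T W ε hε hLab hLoc ι _ _ J1 C X κ S₀ hκ hCX hHB hS₀ hC hdis
  have hTu : ∀ p ∈ Fintype.piFinset C, Tu Φ J1 (S₀ ∪ W) p := by
    intro p hp
    rw [Fintype.mem_piFinset] at hp
    refine ⟨?_, fun i => hC i _ (hp i)⟩
    intro i j hij
    by_contra hne
    have h1 := Finset.disjoint_left.1 (hdis i j hne) (hp i)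
    rw [hij] at h1
    exact h1 (hp j)
  have hfib : ∀ (P : (ι → ℕ) → Prop) [DecidablePred P],
      (((Fintype.piFinset C).filter fun p => P p).card : ℝ) =
      ∑ β : ι → (↥(S₀ ∪ W) → ZMod 2) × (↥(S₀ ∪ W) → ZMod 2) × ZMod 2,
        (((Fintype.piFinset C).filter fun p =>
          (fun i => lb f (S₀ ∪ W) (p i)) = β ∧ P p).card : ℝ) := by
    intro P _
    rw [Finset.card_eq_sum_card_fiberwise (f := fun (p : ι → ℕ) (i : ι) => lb f (S₀ ∪ W) (p i))
      (t := univ) (by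
        intro p hp
        exact Finset.mem_coe.2 (Finset.mem_univ _))]
    push_cast
    refine Finset.sum_congr rfl fun β hβ => ?_
    rw [Finset.filter_filter]
    congr 2
    ext p
    simp only [Finset.mem_filter]
    tauto
  have h1 := hfib fun p => N S₀ (univ.image p)
  have h2 := hfib fun p => N S₀ (univ.image p) ∧ T (S₀ ∪ univ.image p)
  have h3 := Finset.sum_le_sum fun β (_ : β ∈ (univ : Finset (ι →
    (↥(S₀ ∪ W) → ZMod 2) × (↥(S₀ ∪ W) → ZMod 2) × ZMod 2))) =>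
      one hLab hLoc hκ hCX hHB hS₀ hTu β
  rw [← Finset.mul_sum, Finset.sum_add_distrib, ← h1, ← h2, Finset.sum_const, nsmul_eq_mul,
    Finset.card_univ, Fintype.card_fun, Fintype.card_prod, Fintype.card_prod, Fintype.card_fun,
    ZMod.card, Fintype.card_coe] at h3
  have h4 : (((2 ^ (S₀ ∪ W).card * (2 ^ (S₀ ∪ W).card * 2)) ^ Fintype.card ι : ℕ) : ℝ) *
      (2 ^ (prs J1).card * (κ * ∏ j, (X j : ℝ))) =
      2 ^ ((2 * (S₀ ∪ W).card + 1) * Fintype.card ι + (prs J1).card) *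
        (κ * ∏ j, (X j : ℝ)) := by
    push_cast
    rw [pow_add, pow_mul, ← mul_assoc]
    congr 3
    ring
  rw [h4] at h3
  linarith

end Q110.NL
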